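import Pool.Agent.G3.CvA
import Pool.Agent.AD.ChartBasic
import Pool.Agent.TG.Gd
import Pool.Agent.H14.PP.CurveBasic

/-!
# G3 PS Du: the derivative of `u` is bounded by the Fubini-Study length

At `x ∈ X` the map `u` is, modulo `Λ`, a function `v` which is analytic near `x` in `EN N` (`TMap.loc`); on a curve `h = v ∘ F + const` near the point (`Λ` is discrete, so the difference
is locally constant), so `deriv h z = fderiv v (F z) (F' z)`; for unit vectors `F z` in a neighbourhood of `x` this is `≤ C ‖F' z‖`.  Scale and rotate the lift first: `F̃ = g • F` with `g` holomorphic,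
`F̃ z` a unit vector and `F̃' z ⟂ F̃ z`: then `‖F̃' z‖ = fs` (`fs_eq` in `H14/PP/CurveBasic`, `fs_inv` in `H36/BP/WdA`); `u (g F) - u F ∈ Λ` (`TMap.smul`), so `h` is also a lift of `u ∘ F̃`.
Compactness of `X ∩ sphere` gives a uniform constant.
-/

set_option autoImplicit false

open Topology Filter Metric

namespace Pool.Agent.G3

open Pool.Agent.H36.BP (EN fs wd Sub)
open Pool.Agent.H14.PP (IsCone CurveAt Tan)
open Pool.Agent.H62.EF (MN pr)
open Pool.Agent.AD (Vd Chart Charts)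
open Pool.Agent.TG (TMap Lat Geo Gd)

variable {N k : ℕ} {X : Set (EN N)} {Λ : AddSubgroup (Vd (k + 1))} {u : EN N → Vd (k + 1)} {D : Set (Vd (k + 1))} {m J r : ℕ}
  {P : Fin J → SForm X Λ u m} {W : Fin r → Vd (k + 1) →L[ℂ] ℂ}

/-- the bound for curves through the points of the set `S` -/
private def DuB (X : Set (EN N)) (Λ : AddSubgroup (Vd (k + 1))) (u : EN N → Vd (k + 1)) (S : Set (EN N)) : Prop :=
  ∃ C : ℝ, 0 < C ∧ ∀ (G : ℂ → EN N) (h : ℂ → Vd (k + 1)) (z : ℂ), AnalyticAt ℂ G z → AnalyticAt ℂ h z → G z ∈ S →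
    (∀ᶠ w in 𝓝 z, G w ∈ X ∧ u (G w) - h w ∈ Λ) → ‖deriv h z‖ ≤ C * ‖deriv G z‖

private theorem duB_local (hu : TMap X Λ u) (hΛ : Lat Λ) {x₀ : EN N} (hx₀ : x₀ ∈ X) : ∃ V ∈ 𝓝 x₀, DuB X Λ u V := by
  obtain ⟨v, hv, hvΛ⟩ := hu.loc x₀ hx₀
  obtain ⟨C, hC⟩ : ∃ C : ℝ, C = ‖fderiv ℂ v x₀‖ + 1 := ⟨_, rfl⟩
  have hC0 : 0 < C := by
    rw [hC]
    positivity
  have hcont : ContinuousAt (fun y => ‖fderiv ℂ v y‖) x₀ := hv.fderiv.continuousAt.norm
  have hev : ∀ᶠ y in 𝓝 x₀, (∀ᶠ y' in 𝓝 y, y' ∈ X → u y' - v y' ∈ Λ) ∧ AnalyticAt ℂ v y ∧ ‖fderiv ℂ v y‖ < C :=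
    hvΛ.eventually_nhds.and (hv.eventually_analyticAt.and (hcont.eventually_lt_const (by rw [hC]; linarith)))
  refine ⟨_, hev, C, hC0, fun G h z hG hh hz hmem => ?_⟩
  obtain ⟨h1, h2, h3⟩ := hz
  obtain ⟨δ, hδ, hdisc⟩ := hΛ.disc
  obtain ⟨g, hg⟩ : ∃ g : ℂ → Vd (k + 1), g = fun w => h w - v (G w) := ⟨_, rfl⟩
  have hvG : AnalyticAt ℂ (fun w => v (G w)) z := AnalyticAt.fun_comp (g := v) (f := G) h2 hG
  have hgc : ContinuousAt g z := by
    rw [hg]
    exact hh.continuousAt.sub hvG.continuousAt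
  have hgΛ : ∀ᶠ w in 𝓝 z, g w ∈ Λ := by
    filter_upwards [hmem, hG.continuousAt.eventually h1] with w hw hw'
    have h4 := Λ.sub_mem (hw' hw.1) hw.2
    have e : u (G w) - v (G w) - (u (G w) - h w) = g w := by
      rw [hg]
      simp only
      abel
    rwa [e] at h4
  have hgz : g z ∈ Λ := hgΛ.self_of_nhds
  have hconst : ∀ᶠ w in 𝓝 z, h w = v (G w) + g z := by
    have hd : ∀ᶠ w in 𝓝 z, dist (g w) (g z) < δ := hgc.eventually (ball_mem_nhds _ hδ)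
    filter_upwards [hgΛ, hd] with w hw1 hw2
    rw [dist_eq_norm] at hw2
    have h4 := hdisc _ (Λ.sub_mem hw1 hgz) hw2
    have h5 : g w = g z := sub_eq_zero.1 h4
    rw [← h5, hg]
    simp only
    abel
  have hder : deriv h z = fderiv ℂ v (G z) (deriv G z) := by
    have h4 : HasDerivAt (fun w => v (G w) + g z) (fderiv ℂ v (G z) (deriv G z)) z :=
      (h2.differentiableAt.hasFDerivAt.comp_hasDerivAt z hG.differentiableAt.hasDerivAt).add_const (g z)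
    have h5 : h =ᶠ[𝓝 z] fun w => v (G w) + g z := hconst
    rw [h5.deriv_eq]
    exact h4.deriv
  rw [hder]
  exact (ContinuousLinearMap.le_opNorm _ _).trans (mul_le_mul_of_nonneg_right h3.le (norm_nonneg _))

private theorem duB_compact (hu : TMap X Λ u) (hΛ : Lat Λ) {K : Set (EN N)} (hK : IsCompact K) (hKX : K ⊆ X) : DuB X Λ u K := by
  refine hK.induction_on (p := fun S => DuB X Λ u S) ?_ ?_ ?_ ?_
  · exact ⟨1, one_pos, fun G h z _ _ hz _ => absurd hz (Set.notMem_empty _)⟩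
  · rintro s t hst ⟨C, hC, h⟩
    exact ⟨C, hC, fun G h' z h1 h2 hz h3 => h G h' z h1 h2 (hst hz) h3⟩
  · rintro s t ⟨C, hC, h⟩ ⟨C', hC', h'⟩
    refine ⟨max C C', lt_max_of_lt_left hC, fun G g z h1 h2 hz h3 => ?_⟩
    rcases hz with hz | hz
    · exact (h G g z h1 h2 hz h3).trans (mul_le_mul_of_nonneg_right (le_max_left _ _) (norm_nonneg _))
    · exact (h' G g z h1 h2 hz h3).trans (mul_le_mul_of_nonneg_right (le_max_right _ _) (norm_nonneg _))
  · intro x hx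
    obtain ⟨V, hV, h⟩ := duB_local hu hΛ (hKX hx)
    exact ⟨V, mem_nhdsWithin_of_mem_nhds hV, h⟩

theorem du_bound (hX : IsCone X) (hu : TMap X Λ u) (hΛ : Lat Λ) :
    ∃ C : ℝ, 0 < C ∧ ∀ (U : Set ℂ) (F : ℂ → EN N) (h : ℂ → Vd (k + 1)), IsOpen U → Cv X Λ u U F h → ∀ z ∈ U, ‖deriv h z‖ ≤ C * fs (F z) (deriv F z) := by
  obtain ⟨C, hC, hb⟩ := duB_compact hu hΛ (Pool.Agent.TG.compact_unit hX) Set.inter_subset_left
  refine ⟨C, hC, fun U F h hU hF z hz => ?_⟩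
  have hUz : U ∈ 𝓝 z := hU.mem_nhds hz
  have hFz : AnalyticAt ℂ F z := hF.F_diff.analyticAt hUz
  have hhz : AnalyticAt ℂ h z := hF.h_diff.analyticAt hUz
  have hx0 : F z ≠ 0 := Pool.Agent.TG.ne_zero hX (hF.mem z hz)
  have hn : ‖F z‖ ≠ 0 := norm_ne_zero_iff.2 hx0
  have hnc : (‖F z‖ : ℂ) ≠ 0 := by exact_mod_cast hn
  obtain ⟨a, ha⟩ : ∃ a : ℂ, a = -(inner ℂ (F z) (deriv F z) / (‖F z‖ : ℂ) ^ 2) := ⟨_, rfl⟩
  obtain ⟨g, hg⟩ : ∃ g : ℂ → ℂ, g = fun w => (‖F z‖ : ℂ)⁻¹ * Complex.exp (a * (w - z)) := ⟨_, rfl⟩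
  have hg0 : ∀ w, g w ≠ 0 := by
    intro w
    rw [hg]
    exact mul_ne_zero (inv_ne_zero hnc) (Complex.exp_ne_zero _)
  have hgan : AnalyticAt ℂ g z := by
    have h1 : Differentiable ℂ g := by
      rw [hg]
      fun_prop
    exact h1.analyticAt z
  have hgz : g z = (‖F z‖ : ℂ)⁻¹ := by
    rw [hg]
    simp
  have hgd : HasDerivAt g ((‖F z‖ : ℂ)⁻¹ * a) z := by
    have h1 : HasDerivAt (fun w : ℂ => a * (w - z)) a z := by
      simpa using ((hasDerivAt_id z).sub_const z).const_mul a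
    have h2 := (h1.cexp).const_mul ((‖F z‖ : ℂ)⁻¹)
    rw [hg]
    simpa using h2
  have hGan : AnalyticAt ℂ (fun w => g w • F w) z := hgan.smul hFz
  have hGz : g z • F z ∈ X ∩ sphere (0 : EN N) 1 := by
    refine ⟨hX.smul_mem _ (hF.mem z hz) _ (hg0 z), ?_⟩
    rw [mem_sphere_iff_norm, sub_zero, norm_smul, hgz, norm_inv, Complex.norm_real, norm_norm, inv_mul_cancel₀ hn]
  have hmem : ∀ᶠ w in 𝓝 z, g w • F w ∈ X ∧ u (g w • F w) - h w ∈ Λ := by
    filter_upwards [hUz] with w hw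
    refine ⟨hX.smul_mem _ (hF.mem w hw) _ (hg0 w), ?_⟩
    have h1 := Λ.add_mem (hu.smul (F w) (hF.mem w hw) (g w) (hg0 w)) (hF.lift w hw)
    have e : u (g w • F w) - u (F w) + (u (F w) - h w) = u (g w • F w) - h w := by abel
    rwa [e] at h1
  have hd : deriv (fun w => g w • F w) z = (‖F z‖ : ℂ)⁻¹ • (deriv F z - (inner ℂ (F z) (deriv F z) / (‖F z‖ : ℂ) ^ 2) • F z) := by
    have h1 := (hgd.smul hFz.differentiableAt.hasDerivAt).deriv
    rw [show (fun w => g w • F w) = g • F from rfl, h1, hgz, ha, smul_sub, smul_smul, mul_neg, neg_smul, sub_eq_add_neg]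
  have key := hb (fun w => g w • F w) h z hGan hhz hGz hmem
  rw [hd, norm_smul, norm_inv, Complex.norm_real, norm_norm] at key
  rw [Pool.Agent.H14.PP.fs_eq hx0, div_eq_inv_mul]
  exact key

end Pool.Agent.G3
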