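import Pool.Agent.G3.PS.Cont
import Pool.Agent.AD.ChartBasic
import Pool.Agent.TG.Gd
import Pool.Agent.TG.Tc
import Pool.Agent.TG.Y.Dv
import Pool.Agent.AD.ChartFs

/-!
# G3 PS Low: comparison of `pP` with the Fubini-Study length

Plan.  Suppose the claim is false: there are `x n ∈ X`, `v n` tangent with (after scaling `x`, `v` and adding a multiple of `x` to `v`: `SForm.scale`, `add_smul`, `hom`, invariance of `fs`
(`fs_inv`, `fs_smul_right`)) `‖x n‖ = 1`, and `pP (x n) (v n) > n fs^m` resp. `< fs^m / n`.  Choose `y n` in a bounded set with `u (x n) - y n ∈ Λ` (`Lat.cpt`); pass to an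
ultrafilter limit: `x n → x ∈ X` (compactness of `X ∩ sphere`, `IsCone.closed`), `y n → y`, `u x - y ∈ Λ`.  In a chart `χ` at `x` (`Charts`) with a holomorphic lift `υ` of `u ∘ χ.σ` near
`q = χ.q x = 0` with `υ 0 = y` (see `TG.exists_lift_chart` in `TG/Y/Dv` and `TG/Tc`): `x n = c n • χ.σ (q n)`, `v n = c n • dσ (w n) + b n • x n` (tangent vectors in charts: `AD/ChartBasic`,
`TG.exists_tan`), `y n = υ (q n)` for `𝒰`-many `n` (`Λ` is discrete).  `fs (x n) (v n)` is comparable to `‖w n‖` (immersion, compactness), so normalise `‖w n‖ = 1`, `w n → w ≠ 0`.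
`(P j).toFun (υ q) (χ.σ q) (dσ_q w)` is continuous in `(q, w)` (`SForm.analytic`): the first claim follows; for the second one the limit is `0` for all `j`, `y ∈ Gd D δ` is not in `D`,
and `PData.zero` says that `dσ w` is proportional to `σ 0`, so `w = 0` (chart), contradiction.
-/

set_option autoImplicit false

open Topology Filter Metric

namespace Pool.Agent.G3

open Pool.Agent.H36.BP (EN fs wd Sub)
open Pool.Agent.H14.PP (IsCone CurveAt Tan)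
open Pool.Agent.H62.EF (MN pr)
open Pool.Agent.AD (Vd Chart Charts)
open Pool.Agent.TG (TMap Lat Geo Gd)

variable {N k : ℕ} {X : Set (EN N)} {Λ : AddSubgroup (Vd (k + 1))} {u : EN N → Vd (k + 1)} {D : Set (Vd (k + 1))} {m J r : ℕ}
  {P : Fin J → SForm X Λ u m} {W : Fin r → Vd (k + 1) →L[ℂ] ℂ}

/-- the value of `pP` in a chart with the lift `υ` of `u` -/
private noncomputable def LowG (P : Fin J → SForm X Λ u m) (W : Fin r → Vd (k + 1) →L[ℂ] ℂ) (χ : Chart (k + 2) X) (υ : Vd (k + 2) → Vd (k + 1))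
    (q w : Vd (k + 2)) : ℝ :=
  (⨆ j, ‖(P j).toFun (υ q) (χ.σ q) (fderiv ℂ χ.σ q w)‖) * ‖χ.σ q‖ * Real.exp (-wt W (υ q))

private theorem Low_tan_smul (hX : IsCone X) {x v : EN N} (h : Tan X x v) {c : ℂ} (hc : c ≠ 0) : Tan X (c • x) (c • v) := by
  obtain ⟨F, hF, hF0, hFd⟩ := h
  refine ⟨fun z => c • F z, ⟨AnalyticAt.fun_smul analyticAt_const hF.1, ?_⟩, ?_, ?_⟩
  · filter_upwards [hF.2] with z hz
    exact hX.smul_mem _ hz c hc
  · show c • F 0 = c • x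
    rw [hF0]
  · have h1 : HasDerivAt (fun z => c • F z) (c • deriv F 0) 0 :=
      hF.1.differentiableAt.hasDerivAt.const_smul c
    rw [h1.deriv, hFd]

private theorem Low_iSup (a : Fin J → ℝ) (s t : ℝ) (hs : 0 ≤ s) (ht : 0 ≤ t) : (⨆ j, a j) * s * t = ⨆ j, a j * s * t := by
  rw [Real.iSup_mul_of_nonneg hs, Real.iSup_mul_of_nonneg ht]

private theorem Low_eq (hX : IsCone X) (hu : TMap X Λ u) (hP : PData X Λ u D P W) (χ : Chart (k + 2) X) {υ : Vd (k + 2) → Vd (k + 1)} {x : EN N} (hx : x ∈ X)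
    (hU : x ∈ χ.U) (hl : u (χ.σ (χ.q x)) - υ (χ.q x) ∈ Λ) {v : EN N} (hv : Tan X x v) :
    pP P W x v = LowG P W χ υ (χ.q x) (fderiv ℂ χ.q x v) := by
  obtain ⟨c, a, hc, hxc, hvc⟩ := Pool.Agent.TG.tan_decomp hX χ hx hU hv
  have hb : χ.q x ∈ ball (0 : Vd (k + 2)) 2 := (χ.surj x hx hU).1
  have hσX : χ.σ (χ.q x) ∈ X := (χ.σ_mem _ hb).1
  set q := χ.q x with hq
  set w := fderiv ℂ χ.q x v with hw
  have hux : u x - υ q ∈ Λ := by
    have h1 : u (c • χ.σ q) - u (χ.σ q) ∈ Λ := hu.smul _ hσX c hc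
    rw [← hxc] at h1
    have h2 := Λ.add_mem h1 hl
    have e : u x - u (χ.σ q) + (u (χ.σ q) - υ q) = u x - υ q := by abel
    rwa [e] at h2
  have htσ : Tan X (χ.σ q) (fderiv ℂ χ.σ q w) := Pool.Agent.TG.tan_sigma χ hb w
  have htx : Tan X x (c • fderiv ℂ χ.σ q w) := by
    have h1 := Low_tan_smul hX htσ hc
    rwa [← hxc] at h1
  have key : ∀ j, ‖(P j).toFun (u x) x v‖ * ‖x‖ * Real.exp (-wt W (u x)) =
      ‖(P j).toFun (υ q) (χ.σ q) (fderiv ℂ χ.σ q w)‖ * ‖χ.σ q‖ * Real.exp (-wt W (υ q)) := by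
    intro j
    have h1 := hP.per j (υ q) (u x - υ q) hux x hx hux v hv
    rw [add_sub_cancel] at h1
    have h2 : (P j).toFun (υ q) x v = (P j).toFun (υ q) x (c • fderiv ℂ χ.σ q w) := by
      conv_lhs => rw [hvc]
      exact (P j).add_smul (υ q) x hx hux (c • fderiv ℂ χ.σ q w) htx a
    have h3 := (P j).scale (υ q) (χ.σ q) hσX hl (fderiv ℂ χ.σ q w) htσ c hc
    rw [← hxc, ← h2] at h3
    have h4 : ‖x‖ = ‖c‖ * ‖χ.σ q‖ := by
      conv_lhs => rw [hxc]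
      rw [norm_smul]
    rw [mul_right_comm, h1, ← h3, norm_mul, h4]
    ring
  unfold pP LowG
  rw [Low_iSup _ _ _ (norm_nonneg _) (Real.exp_nonneg _), Low_iSup _ _ _ (norm_nonneg _) (Real.exp_nonneg _)]
  simp_rw [key]

private theorem Low_hom (χ : Chart (k + 2) X) {υ : Vd (k + 2) → Vd (k + 1)} {q : Vd (k + 2)} (hb : q ∈ ball (0 : Vd (k + 2)) 2)
    (hl : u (χ.σ q) - υ q ∈ Λ) (w : Vd (k + 2)) (t : ℂ) : LowG P W χ υ q (t • w) = ‖t‖ ^ m * LowG P W χ υ q w := by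
  have hσX : χ.σ q ∈ X := (χ.σ_mem _ hb).1
  have key : ∀ j, ‖(P j).toFun (υ q) (χ.σ q) (fderiv ℂ χ.σ q (t • w))‖ = ‖t‖ ^ m * ‖(P j).toFun (υ q) (χ.σ q) (fderiv ℂ χ.σ q w)‖ := by
    intro j
    rw [map_smul, (P j).hom (υ q) (χ.σ q) hσX hl _ (Pool.Agent.TG.tan_sigma χ hb w) t, norm_mul, norm_pow]
  unfold LowG
  simp_rw [key]
  rw [← Real.mul_iSup_of_nonneg (pow_nonneg (norm_nonneg _) _)]
  ring

private theorem Low_cont (P : Fin J → SForm X Λ u m) (W : Fin r → Vd (k + 1) →L[ℂ] ℂ) (χ : Chart (k + 2) X) {υ : Vd (k + 2) → Vd (k + 1)} {q : Vd (k + 2)}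
    (hb : q ∈ ball (0 : Vd (k + 2)) 2) (hυ : AnalyticAt ℂ υ q) (hl : ∀ᶠ p in 𝓝 q, u (χ.σ p) - υ p ∈ Λ) (w : Vd (k + 2)) :
    ContinuousAt (fun z : Vd (k + 2) × Vd (k + 2) => LowG P W χ υ z.1 z.2) (q, w) := by
  have hev : ∀ᶠ p in 𝓝 q, χ.σ p ∈ X ∧ u (χ.σ p) - υ p ∈ Λ := by
    filter_upwards [hl, isOpen_ball.mem_nhds hb] with p hp hpb
    exact ⟨(χ.σ_mem p hpb).1, hp⟩
  have h1 : ∀ j, ContinuousAt (fun z : Vd (k + 2) × Vd (k + 2) => ‖(P j).toFun (υ z.1) (χ.σ z.1) (fderiv ℂ χ.σ z.1 z.2)‖) (q, w) := fun j =>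
    ((P j).analytic (k + 2) χ.σ υ q w (χ.σ_an q hb) hυ hev).continuousAt.norm
  have hfst : ContinuousAt (fun z : Vd (k + 2) × Vd (k + 2) => z.1) (q, w) := continuousAt_fst
  have h2 : ContinuousAt (fun z : Vd (k + 2) × Vd (k + 2) => χ.σ z.1) (q, w) :=
    ContinuousAt.comp (f := fun z : Vd (k + 2) × Vd (k + 2) => z.1) (g := χ.σ) (χ.σ_an q hb).continuousAt hfst
  have h3 : ContinuousAt (fun z : Vd (k + 2) × Vd (k + 2) => υ z.1) (q, w) :=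
    ContinuousAt.comp (f := fun z : Vd (k + 2) × Vd (k + 2) => z.1) (g := υ) hυ.continuousAt hfst
  have h4 : ContinuousAt (fun z : Vd (k + 2) × Vd (k + 2) => ⨆ j, ‖(P j).toFun (υ z.1) (χ.σ z.1) (fderiv ℂ χ.σ z.1 z.2)‖) (q, w) := by
    rcases isEmpty_or_nonempty (Fin J) with hJ | hJ
    · simp_rw [Real.iSup_of_isEmpty]
      exact continuousAt_const
    · have h5 : ∀ z : Vd (k + 2) × Vd (k + 2), (⨆ j, ‖(P j).toFun (υ z.1) (χ.σ z.1) (fderiv ℂ χ.σ z.1 z.2)‖) =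
          Finset.univ.sup' Finset.univ_nonempty fun j => ‖(P j).toFun (υ z.1) (χ.σ z.1) (fderiv ℂ χ.σ z.1 z.2)‖ := fun z =>
        (Finset.sup'_univ_eq_ciSup _).symm
      simp_rw [h5]
      exact ContinuousAt.finset_sup'_apply _ fun j _ => h1 j
  have h6 : ContinuousAt (fun z : Vd (k + 2) × Vd (k + 2) => Real.exp (-wt W (υ z.1))) (q, w) := by
    refine Real.continuous_exp.continuousAt.comp ?_
    refine ContinuousAt.neg ?_
    unfold wt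
    refine tendsto_finsetSum _ fun i _ => ?_
    have h7 : ContinuousAt (fun z : Vd (k + 2) × Vd (k + 2) => W i (υ z.1)) (q, w) := (W i).continuous.continuousAt.comp h3
    exact (h7.norm.pow 2)
  exact (h4.mul h2.norm).mul h6

private theorem Low_nonneg (χ : Chart (k + 2) X) (υ : Vd (k + 2) → Vd (k + 1)) (q w : Vd (k + 2)) : 0 ≤ LowG P W χ υ q w := by
  unfold LowG
  exact mul_nonneg (mul_nonneg (Real.iSup_nonneg fun _ => norm_nonneg _) (norm_nonneg _)) (Real.exp_nonneg _)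

/-- the local upper bound in the chart -/
private theorem Low_upper (P : Fin J → SForm X Λ u m) (W : Fin r → Vd (k + 1) →L[ℂ] ℂ) (χ : Chart (k + 2) X) {υ : Vd (k + 2) → Vd (k + 1)} {q : Vd (k + 2)}
    (hb : q ∈ ball (0 : Vd (k + 2)) 2) (hυ : AnalyticAt ℂ υ q) (hl : ∀ᶠ p in 𝓝 q, u (χ.σ p) - υ p ∈ Λ) :
    ∃ C : ℝ, ∀ᶠ p in 𝓝 q, ∀ w ∈ sphere (0 : Vd (k + 2)) 1, LowG P W χ υ p w ≤ C := by
  refine (isCompact_sphere (0 : Vd (k + 2)) 1).induction_on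
    (p := fun S : Set (Vd (k + 2)) => ∃ C : ℝ, ∀ᶠ p in 𝓝 q, ∀ w ∈ S, LowG P W χ υ p w ≤ C) ?_ ?_ ?_ ?_
  · exact ⟨0, Filter.Eventually.of_forall fun p w hw => absurd hw (Set.notMem_empty w)⟩
  · rintro S T hST ⟨C, hC⟩
    exact ⟨C, hC.mono fun p hp w hw => hp w (hST hw)⟩
  · rintro S T ⟨C, hC⟩ ⟨C', hC'⟩
    refine ⟨max C C', ?_⟩
    filter_upwards [hC, hC'] with p h1 h2 w hw
    rcases hw with hw | hw
    · exact (h1 w hw).trans (le_max_left _ _)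
    · exact (h2 w hw).trans (le_max_right _ _)
  · intro w _
    have h1 := Low_cont P W χ hb hυ hl w
    have h2 : ∀ᶠ z in 𝓝 ((q, w) : Vd (k + 2) × Vd (k + 2)), LowG P W χ υ z.1 z.2 < LowG P W χ υ q w + 1 :=
      h1.eventually_lt_const (by show LowG P W χ υ q w < LowG P W χ υ q w + 1; linarith)
    rw [nhds_prod_eq] at h2
    obtain ⟨pa, hpa, pb, hpb, hab⟩ := Filter.eventually_prod_iff.mp h2
    exact ⟨{w' | pb w'}, mem_nhdsWithin_of_mem_nhds hpb, LowG P W χ υ q w + 1, hpa.mono fun p hp w' hw' => (hab hp hw').le⟩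

/-- the local lower bound in the chart -/
private theorem Low_lower (P : Fin J → SForm X Λ u m) (W : Fin r → Vd (k + 1) →L[ℂ] ℂ) (χ : Chart (k + 2) X) {υ : Vd (k + 2) → Vd (k + 1)} {q : Vd (k + 2)}
    (hb : q ∈ ball (0 : Vd (k + 2)) 2) (hυ : AnalyticAt ℂ υ q) (hl : ∀ᶠ p in 𝓝 q, u (χ.σ p) - υ p ∈ Λ)
    (hpos : ∀ w ∈ sphere (0 : Vd (k + 2)) 1, 0 < LowG P W χ υ q w) :
    ∃ c : ℝ, 0 < c ∧ ∀ᶠ p in 𝓝 q, ∀ w ∈ sphere (0 : Vd (k + 2)) 1, c ≤ LowG P W χ υ p w := by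
  refine (isCompact_sphere (0 : Vd (k + 2)) 1).induction_on
    (p := fun S : Set (Vd (k + 2)) => ∃ c : ℝ, 0 < c ∧ ∀ᶠ p in 𝓝 q, ∀ w ∈ S, c ≤ LowG P W χ υ p w) ?_ ?_ ?_ ?_
  · exact ⟨1, one_pos, Filter.Eventually.of_forall fun p w hw => absurd hw (Set.notMem_empty w)⟩
  · rintro S T hST ⟨C, hC0, hC⟩
    exact ⟨C, hC0, hC.mono fun p hp w hw => hp w (hST hw)⟩
  · rintro S T ⟨C, hC0, hC⟩ ⟨C', hC0', hC'⟩
    refine ⟨min C C', lt_min hC0 hC0', ?_⟩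
    filter_upwards [hC, hC'] with p h1 h2 w hw
    rcases hw with hw | hw
    · exact (min_le_left _ _).trans (h1 w hw)
    · exact (min_le_right _ _).trans (h2 w hw)
  · intro w hw
    have h0 := hpos w hw
    have h1 := Low_cont P W χ hb hυ hl w
    have h2 : ∀ᶠ z in 𝓝 ((q, w) : Vd (k + 2) × Vd (k + 2)), LowG P W χ υ q w / 2 < LowG P W χ υ z.1 z.2 :=
      h1.eventually_const_lt (by show LowG P W χ υ q w / 2 < LowG P W χ υ q w; linarith)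
    rw [nhds_prod_eq] at h2
    obtain ⟨pa, hpa, pb, hpb, hab⟩ := Filter.eventually_prod_iff.mp h2
    exact ⟨{w' | pb w'}, mem_nhdsWithin_of_mem_nhds hpb, LowG P W χ υ q w / 2, by linarith, hpa.mono fun p hp w' hw' => (hab hp hw').le⟩

private theorem Low_norm {w : Vd (k + 2)} (hw : w ≠ 0) : ∃ w' ∈ sphere (0 : Vd (k + 2)) 1, w = ((‖w‖ : ℝ) : ℂ) • w' := by
  have hn : ‖w‖ ≠ 0 := norm_ne_zero_iff.mpr hw
  have hn' : ((‖w‖ : ℝ) : ℂ) ≠ 0 := by exact_mod_cast hn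
  refine ⟨(((‖w‖ : ℝ) : ℂ))⁻¹ • w, ?_, ?_⟩
  · rw [mem_sphere_zero_iff_norm, norm_smul, norm_inv, Complex.norm_real, norm_norm]
    exact inv_mul_cancel₀ hn
  · rw [smul_inv_smul₀ hn']

/-- invariance under scaling -/
private theorem Low_scale (hX : IsCone X) (hu : TMap X Λ u) (hP : PData X Λ u D P W) {x : EN N} (hx : x ∈ X) {v : EN N} (hv : Tan X x v) {c : ℂ} (hc : c ≠ 0) :
    pP P W (c • x) (c • v) = pP P W x v := by
  have hcx : c • x ∈ X := hX.smul_mem x hx c hc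
  have hl : u (c • x) - u x ∈ Λ := hu.smul x hx c hc
  have hl0 : u x - u x ∈ Λ := by rw [sub_self]; exact Λ.zero_mem
  have key : ∀ j, ‖(P j).toFun (u (c • x)) (c • x) (c • v)‖ * ‖c • x‖ * Real.exp (-wt W (u (c • x))) =
      ‖(P j).toFun (u x) x v‖ * ‖x‖ * Real.exp (-wt W (u x)) := by
    intro j
    have h1 := hP.per j (u x) (u (c • x) - u x) hl (c • x) hcx hl (c • v) (Low_tan_smul hX hv hc)
    rw [add_sub_cancel] at h1
    have h2 := (P j).scale (u x) x hx hl0 v hv c hc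
    rw [mul_right_comm, h1, ← h2, norm_mul, norm_smul]
    ring
  unfold pP
  rw [Low_iSup _ _ _ (norm_nonneg _) (Real.exp_nonneg _), Low_iSup _ _ _ (norm_nonneg _) (Real.exp_nonneg _)]
  simp_rw [key]

private theorem Low_fs_scale (hX : IsCone X) {x : EN N} (hx : x ∈ X) (v : EN N) {c : ℂ} (hc : c ≠ 0) : fs (c • x) (c • v) = fs x v := by
  have h1 := Pool.Agent.H36.BP.fs_inv (Pool.Agent.TG.ne_zero hX hx) v hc 0
  rwa [zero_smul, add_zero] at h1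

private theorem Low_le_loc (hX : IsCone X) (hch : Charts (k + 2) X) (hu : TMap X Λ u) (hP : PData X Λ u D P W) {x₀ : EN N} (hx₀ : x₀ ∈ X) :
    ∃ C : ℝ, ∀ᶠ x in 𝓝 x₀, x ∈ X → ∀ v, Tan X x v → pP P W x v ≤ C * fs x v ^ m := by
  obtain ⟨χ, hU, hq0⟩ := hch x₀ hx₀
  have hl0 : u x₀ - u x₀ ∈ Λ := by rw [sub_self]; exact Λ.zero_mem
  obtain ⟨υ, hυ, -, hl⟩ := Pool.Agent.TG.exists_lift_chart hX hu χ hx₀ hU hl0
  have hb : χ.q x₀ ∈ ball (0 : Vd (k + 2)) 2 := (χ.surj x₀ hx₀ hU).1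
  obtain ⟨C, hC⟩ := Low_upper P W χ hb hυ hl
  obtain ⟨C₁, hC₁, hfs, -⟩ := χ.exists_fs_bound hX
  have hqc : Tendsto χ.q (𝓝 x₀) (𝓝 (χ.q x₀)) := (χ.q_an x₀ hU).continuousAt
  have hq1 : ∀ᶠ x in 𝓝 x₀, ‖χ.q x‖ < 1 := hqc.norm.eventually_lt_const (by rw [hq0, norm_zero]; exact one_pos)
  refine ⟨max C 0 * C₁ ^ m, ?_⟩
  filter_upwards [hqc.eventually hC, hqc.eventually hl, hq1, χ.isOpen_U.mem_nhds hU, hqc.eventually (isOpen_ball.mem_nhds hb)] with x h1 h2 h3 h4 h5 hx v hv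
  rw [Low_eq hX hu hP χ hx h4 h2 hv]
  set w := fderiv ℂ χ.q x v with hw
  have h6 : LowG P W χ υ (χ.q x) w ≤ max C 0 * ‖w‖ ^ m := by
    by_cases hw0 : w = 0
    · have h7 := Low_hom (P := P) (W := W) χ h5 h2 w 0
      rw [zero_smul, norm_zero, zero_pow (by have := hP.m_pos; omega), zero_mul] at h7
      rw [hw0, h7]
      positivity
    · obtain ⟨w', hw', hww⟩ := Low_norm hw0
      have h7 := Low_hom (P := P) (W := W) χ h5 h2 w' ((‖w‖ : ℝ) : ℂ)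
      rw [← hww, Complex.norm_real, norm_norm] at h7
      rw [h7, mul_comm]
      exact mul_le_mul_of_nonneg_right ((h1 w' hw').trans (le_max_left _ _)) (by positivity)
  refine h6.trans ?_
  rw [mul_assoc, ← mul_pow]
  refine mul_le_mul_of_nonneg_left ?_ (le_max_right _ _)
  exact pow_le_pow_left₀ (norm_nonneg _) (hfs x hx h4 h3.le v) m

private theorem Low_ge_loc (hX : IsCone X) (hch : Charts (k + 2) X) (hu : TMap X Λ u) (hP : PData X Λ u D P W) {x₀ : EN N} (hx₀ : x₀ ∈ X) {y₀ : Vd (k + 1)}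
    (hy₀ : y₀ ∉ D) (hxy : u x₀ - y₀ ∈ Λ) :
    ∃ c : ℝ, 0 < c ∧ ∀ᶠ x in 𝓝 x₀, x ∈ X → ∀ v, Tan X x v → c * fs x v ^ m ≤ pP P W x v := by
  obtain ⟨χ, hU, hq0⟩ := hch x₀ hx₀
  obtain ⟨υ, hυ, hυe, hl⟩ := Pool.Agent.TG.exists_lift_chart hX hu χ hx₀ hU hxy
  have hb : χ.q x₀ ∈ ball (0 : Vd (k + 2)) 2 := (χ.surj x₀ hx₀ hU).1
  have hσ := χ.σ_mem _ hb
  have hlσ : u (χ.σ (χ.q x₀)) - y₀ ∈ Λ := by
    have h1 := hl.self_of_nhds
    rwa [hυe] at h1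
  have hpos : ∀ w ∈ sphere (0 : Vd (k + 2)) 1, 0 < LowG P W χ υ (χ.q x₀) w := by
    intro w hw
    rw [mem_sphere_zero_iff_norm] at hw
    rcases (Low_nonneg (P := P) (W := W) χ υ (χ.q x₀) w).eq_or_lt with h0 | h0
    · exfalso
      have hσ0 : χ.σ (χ.q x₀) ≠ 0 := χ.sigma_ne_zero hX hb
      have h1 : (⨆ j, ‖(P j).toFun (υ (χ.q x₀)) (χ.σ (χ.q x₀)) (fderiv ℂ χ.σ (χ.q x₀) w)‖) = 0 := by
        unfold LowG at h0
        have h2 := h0.symm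
        rcases mul_eq_zero.1 h2 with h3 | h3
        · rcases mul_eq_zero.1 h3 with h4 | h4
          · exact h4
          · exact absurd h4 (norm_ne_zero_iff.mpr hσ0)
        · exact absurd h3 (Real.exp_ne_zero _)
      have h2 : ∀ j, (P j).toFun y₀ (χ.σ (χ.q x₀)) (fderiv ℂ χ.σ (χ.q x₀) w) = 0 := by
        intro j
        have h3 : ‖(P j).toFun (υ (χ.q x₀)) (χ.σ (χ.q x₀)) (fderiv ℂ χ.σ (χ.q x₀) w)‖ ≤ 0 := by
          rw [← h1]
          exact le_ciSup (f := fun j => ‖(P j).toFun (υ (χ.q x₀)) (χ.σ (χ.q x₀)) (fderiv ℂ χ.σ (χ.q x₀) w)‖) (Set.finite_range _).bddAbove j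
        rw [hυe] at h3
        exact norm_le_zero_iff.1 h3
      obtain ⟨c, hc⟩ := hP.zero y₀ hy₀ _ hσ.1 hlσ _ (Pool.Agent.TG.tan_sigma χ hb w) h2
      have h3 := χ.fderiv_sigma hb w
      rw [hc, map_smul, χ.fderiv_q_self hσ.2.1, smul_zero] at h3
      rw [← h3, norm_zero] at hw
      exact zero_ne_one hw
    · exact h0
  obtain ⟨c, hc0, hc⟩ := Low_lower P W χ hb hυ hl hpos
  obtain ⟨C₁, hC₁, -, hfs⟩ := χ.exists_fs_bound hX
  have hqc : Tendsto χ.q (𝓝 x₀) (𝓝 (χ.q x₀)) := (χ.q_an x₀ hU).continuousAt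
  have hq1 : ∀ᶠ x in 𝓝 x₀, ‖χ.q x‖ < 1 := hqc.norm.eventually_lt_const (by rw [hq0, norm_zero]; exact one_pos)
  have hC₁' : 0 < C₁ ^ m := by positivity
  refine ⟨c / C₁ ^ m, by positivity, ?_⟩
  filter_upwards [hqc.eventually hc, hqc.eventually hl, hq1, χ.isOpen_U.mem_nhds hU, hqc.eventually (isOpen_ball.mem_nhds hb)] with x h1 h2 h3 h4 h5 hx v hv
  rw [Low_eq hX hu hP χ hx h4 h2 hv]
  set w := fderiv ℂ χ.q x v with hw
  have h6 : c * ‖w‖ ^ m ≤ LowG P W χ υ (χ.q x) w := by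
    by_cases hw0 : w = 0
    · rw [hw0, norm_zero, zero_pow (by have := hP.m_pos; omega), mul_zero]
      exact Low_nonneg χ υ _ _
    · obtain ⟨w', hw', hww⟩ := Low_norm hw0
      have h7 := Low_hom (P := P) (W := W) χ h5 h2 w' ((‖w‖ : ℝ) : ℂ)
      rw [← hww, Complex.norm_real, norm_norm] at h7
      rw [h7, mul_comm]
      exact mul_le_mul_of_nonneg_left (h1 w' hw') (by positivity)
  have h8 : fs x v ≤ C₁ * ‖w‖ := by
    obtain ⟨F, hF, hF0, hFd⟩ := hv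
    have h9 := hfs F 0 hF (by rw [hF0]; exact h4) (by rw [hF0]; exact h3.le)
    have h10 := (χ.curve hX hF (by rw [hF0]; exact h4)).2.1
    rw [h10, hF0, hFd] at h9
    exact h9
  have h9 : fs x v ^ m ≤ C₁ ^ m * ‖w‖ ^ m := by
    rw [← mul_pow]
    exact pow_le_pow_left₀ (Pool.Agent.H36.BP.fs_nonneg _ _) h8 m
  calc c / C₁ ^ m * fs x v ^ m ≤ c / C₁ ^ m * (C₁ ^ m * ‖w‖ ^ m) := mul_le_mul_of_nonneg_left h9 (by positivity)
    _ = c * ‖w‖ ^ m := by field_simp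
    _ ≤ _ := h6

theorem pP_le_fs (hX : IsCone X) (hch : Charts (k + 2) X) (hu : TMap X Λ u) (hΛ : Lat Λ) (hP : PData X Λ u D P W) :
    ∃ C : ℝ, 0 < C ∧ ∀ x ∈ X, ∀ v, Tan X x v → pP P W x v ≤ C * fs x v ^ m := by
  have h1 : ∃ C : ℝ, ∀ x ∈ X ∩ sphere (0 : EN N) 1, ∀ v, Tan X x v → pP P W x v ≤ C * fs x v ^ m := by
    refine (Pool.Agent.TG.compact_unit hX).induction_on
      (p := fun S : Set (EN N) => ∃ C : ℝ, ∀ x ∈ S, x ∈ X → ∀ v, Tan X x v → pP P W x v ≤ C * fs x v ^ m) ?_ ?_ ?_ ?_ |>.imp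
      fun C hC x hx => hC x hx hx.1
    · exact ⟨0, fun x hx => absurd hx (Set.notMem_empty x)⟩
    · rintro S T hST ⟨C, hC⟩
      exact ⟨C, fun x hx => hC x (hST hx)⟩
    · rintro S T ⟨C, hC⟩ ⟨C', hC'⟩
      refine ⟨max C C', fun x hx hxX v hv => ?_⟩
      have h0 : 0 ≤ fs x v ^ m := pow_nonneg (Pool.Agent.H36.BP.fs_nonneg _ _) _
      rcases hx with hx | hx
      · exact (hC x hx hxX v hv).trans (mul_le_mul_of_nonneg_right (le_max_left _ _) h0)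
      · exact (hC' x hx hxX v hv).trans (mul_le_mul_of_nonneg_right (le_max_right _ _) h0)
    · intro x hx
      obtain ⟨C, hC⟩ := Low_le_loc hX hch hu hP hx.1
      exact ⟨_, mem_nhdsWithin_of_mem_nhds hC, C, fun y hy => hy⟩
  obtain ⟨C, hC⟩ := h1
  refine ⟨max C 1, lt_max_of_lt_right one_pos, fun x hx v hv => ?_⟩
  obtain ⟨c, hc, hcx⟩ := Pool.Agent.TG.exists_unit hX hx
  have h2 := hC (c • x) hcx (c • v) (Low_tan_smul hX hv hc)
  rw [Low_scale hX hu hP hx hv hc, Low_fs_scale hX hx v hc] at h2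
  exact h2.trans (mul_le_mul_of_nonneg_right (le_max_left _ _) (pow_nonneg (Pool.Agent.H36.BP.fs_nonneg _ _) _))

theorem pP_ge_fs (hX : IsCone X) (hch : Charts (k + 2) X) (hu : TMap X Λ u) (hΛ : Lat Λ) (hDc : IsClosed D) (hP : PData X Λ u D P W) {δ : ℝ} (hδ : 0 < δ) :
    ∃ c : ℝ, 0 < c ∧ ∀ y ∈ Gd D δ, ∀ x ∈ X, u x - y ∈ Λ → ∀ v, Tan X x v → c * fs x v ^ m ≤ pP P W x v := by
  set S₀ : Set (EN N) := {x | x ∈ X ∩ sphere (0 : EN N) 1 ∧ ∃ y ∈ Gd D δ, u x - y ∈ Λ} with hS₀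
  have hsub : closure S₀ ⊆ X ∩ sphere (0 : EN N) 1 := by
    refine closure_minimal (fun x hx => hx.1) (Pool.Agent.TG.compact_unit hX).isClosed
  have hK : IsCompact (closure S₀) := (Pool.Agent.TG.compact_unit hX).of_isClosed_subset isClosed_closure hsub
  have hy : ∀ x₀ ∈ closure S₀, ∃ y₀ ∉ D, u x₀ - y₀ ∈ Λ := by
    intro x₀ hx₀
    have hxX := (hsub hx₀).1
    obtain ⟨v, hv, hvl⟩ := hu.loc x₀ hxX
    have h1 : ∀ᶠ x in 𝓝 x₀, ‖v x - v x₀‖ < δ := by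
      have h2 : ContinuousAt (fun x => v x - v x₀) x₀ := hv.continuousAt.sub continuousAt_const
      refine h2.norm.eventually_lt_const ?_
      simpa using hδ
    obtain ⟨x, ⟨hx1, hx2⟩, hx3⟩ := mem_closure_iff_nhds.1 hx₀ _ (h1.and hvl)
    obtain ⟨y, hy, hxy⟩ := hx3.2
    refine ⟨y + (v x₀ - v x), ?_, ?_⟩
    · intro hD
      have h3 := hy _ hD
      have h4 : y - (y + (v x₀ - v x)) = v x - v x₀ := by abel
      rw [h4] at h3
      linarith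
    · have h3 := Λ.add_mem (Λ.sub_mem (hvl.self_of_nhds hxX) (hx2 hx3.1.1)) hxy
      have e : u x₀ - v x₀ - (u x - v x) + (u x - y) = u x₀ - (y + (v x₀ - v x)) := by abel
      rwa [e] at h3
  have h1 : ∃ c : ℝ, 0 < c ∧ ∀ x ∈ closure S₀, x ∈ X → ∀ v, Tan X x v → c * fs x v ^ m ≤ pP P W x v := by
    refine hK.induction_on
      (p := fun S : Set (EN N) => ∃ c : ℝ, 0 < c ∧ ∀ x ∈ S, x ∈ X → ∀ v, Tan X x v → c * fs x v ^ m ≤ pP P W x v) ?_ ?_ ?_ ?_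
    · exact ⟨1, one_pos, fun x hx => absurd hx (Set.notMem_empty x)⟩
    · rintro S T hST ⟨C, hC0, hC⟩
      exact ⟨C, hC0, fun x hx => hC x (hST hx)⟩
    · rintro S T ⟨C, hC0, hC⟩ ⟨C', hC0', hC'⟩
      refine ⟨min C C', lt_min hC0 hC0', fun x hx hxX v hv => ?_⟩
      have h0 : 0 ≤ fs x v ^ m := pow_nonneg (Pool.Agent.H36.BP.fs_nonneg _ _) _
      rcases hx with hx | hx
      · exact (mul_le_mul_of_nonneg_right (min_le_left _ _) h0).trans (hC x hx hxX v hv)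
      · exact (mul_le_mul_of_nonneg_right (min_le_right _ _) h0).trans (hC' x hx hxX v hv)
    · intro x hx
      obtain ⟨y₀, hy₀, hxy⟩ := hy x hx
      obtain ⟨c, hc0, hc⟩ := Low_ge_loc hX hch hu hP (hsub hx).1 hy₀ hxy
      exact ⟨_, mem_nhdsWithin_of_mem_nhds hc, c, hc0, fun y hy => hy⟩
  obtain ⟨c, hc0, hc⟩ := h1
  refine ⟨c, hc0, fun y hyG x hx hxy v hv => ?_⟩
  obtain ⟨a, ha, hax⟩ := Pool.Agent.TG.exists_unit hX hx
  have h2 : a • x ∈ closure S₀ := subset_closure ⟨hax, y, hyG, Pool.Agent.TG.smul_mem_lat hu hx hxy ha⟩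
  have h3 := hc (a • x) h2 hax.1 (a • v) (Low_tan_smul hX hv ha)
  rwa [Low_scale hX hu hP hx hv ha, Low_fs_scale hX hx v ha] at h3

end Pool.Agent.G3
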