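import Pool.Agent.G3.PS.Jen
import Pool.Agent.G3.PS.Low
import Pool.Agent.G3.PS.Du

/-!
# G3 PS Main: `pP` has the properties `PS`

Take `C = 1 +` the constants of `pP_le_fs`, `du_bound` and `∑ ‖W i‖^2`; monotonicity in `C` of each field (the circle average of a nonnegative function is nonnegative).
-/

set_option autoImplicit false

open Topology Filter Metric

namespace Pool.Agent.G3

open Pool.Agent.H36.BP (EN fs wd Sub)
open Pool.Agent.H14.PP (IsCone CurveAt Tan)
open Pool.Agent.H62.EF (MN pr)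
open Pool.Agent.AD (Vd Chart Charts)
open Pool.Agent.TG (TMap Lat Geo Gd)

variable {N k : ℕ} {X : Set (EN N)} {Λ : AddSubgroup (Vd (k + 1))} {u : EN N → Vd (k + 1)} {D : Set (Vd (k + 1))} {m J r : ℕ}
  {P : Fin J → SForm X Λ u m} {W : Fin r → Vd (k + 1) →L[ℂ] ℂ}

private theorem PSMain_avg_nonneg {g : ℂ → ℝ} (hg : ∀ w, 0 ≤ g w) (z : ℂ) (s : ℝ) : 0 ≤ Real.circleAverage g z s := by
  unfold Real.circleAverage
  rw [smul_eq_mul]
  refine mul_nonneg (inv_nonneg.2 (by positivity)) ?_
  exact intervalIntegral.integral_nonneg (by positivity) fun θ _ => hg _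

theorem ps_of_pdata (hX : IsCone X) (hch : Charts (k + 2) X) (hu : TMap X Λ u) (hΛ : Lat Λ) (hDc : IsClosed D) (hP : PData X Λ u D P W) :
    ∃ C : ℝ, PS X Λ u D (pP P W) m C := by
  obtain ⟨C₁, hC₁, h1⟩ := pP_le_fs hX hch hu hΛ hP
  obtain ⟨C₂, hC₂, h2⟩ := du_bound (u := u) hX hu hΛ
  have hfs : ∀ x v : EN N, 0 ≤ fs x v := fun x v => Pool.Agent.H36.BP.fs_nonneg x v
  have hC₃ : 0 ≤ ∑ i, ‖W i‖ ^ 2 := Finset.sum_nonneg fun i _ => by positivity
  set C₃ : ℝ := ∑ i, ‖W i‖ ^ 2 with hC₃d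
  refine ⟨1 + C₁ + C₂ + C₃, ?_⟩
  exact
    { m_pos := hP.m_pos
      C_ge := by linarith
      nonneg := pP_nonneg
      hom := fun x hx v hv a => pP_hom hx hv a
      le_fs := fun x hx v hv => by
        refine (h1 x hx v hv).trans ?_
        exact mul_le_mul_of_nonneg_right (by linarith) (pow_nonneg (hfs x v) m)
      ge_fs := fun δ hδ => pP_ge_fs hX hch hu hΛ hDc hP hδ
      du := fun U F h hU hF z hz => by
        refine (h2 U F h hU hF z hz).trans ?_
        exact mul_le_mul_of_nonneg_right (by linarith) (hfs _ _)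
      cont := fun U F h hU hF => pP_cont hX hP hU hF
      jensen := fun U F h hU hF z s hs hz h0 => by
        obtain ⟨ha, hb⟩ := pP_jensen hX hP hU hF hs hz h0
        refine ⟨ha, hb.trans ?_⟩
        have h3 : 0 ≤ Real.circleAverage (fun w => ‖h w - h z‖ ^ 2) z s := PSMain_avg_nonneg (fun w => by positivity) z s
        have : C₃ * Real.circleAverage (fun w => ‖h w - h z‖ ^ 2) z s ≤
            (1 + C₁ + C₂ + C₃) * Real.circleAverage (fun w => ‖h w - h z‖ ^ 2) z s :=
          mul_le_mul_of_nonneg_right (by linarith) h3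
        linarith
      isol := fun U F h hU hF hUc h0 => pP_isol hX hP hU hF hUc h0 }

end Pool.Agent.G3
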