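import Pool.Agent.G3.CvA

/-!
# G3 PS Cont: the function `pP` on curves: formula, continuity, zeros

`aP P h F j z` is the value of the `j`-th form on the curve; it is holomorphic (`SForm.analytic` with `r = 1`, `φ q = F (q 0)`, `υ q = h (q 0)`, `w = 1`: compose with
`z ↦ ((fun _ => z), (fun _ => 1))`; `fderiv ℂ φ q (fun _ => 1) = deriv F (q 0)`).
`pP_curve`: `u (F z) - h z ∈ Λ` and `PData.per` (with `l = u (F z) - h z`, `y = h z`; the tangent vector is `Cv.tan`).
`cont`: the supremum over the finite index set of continuous functions is continuous (`J = 0`: the supremum is `0`), `F`, `h` are continuous.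
`isol`: if `0 < pf .. z₁` then some `aP .. j z₁ ≠ 0`; its zeros are isolated in the preconnected open set `U` (identity theorem, `AnalyticOnNhd.eqOn_zero_of_preconnected_of_frequently_eq_zero`).
-/

set_option autoImplicit false

open Topology Filter Metric

namespace Pool.Agent.G3

open Pool.Agent.H36.BP (EN fs wd Sub)
open Pool.Agent.H14.PP (IsCone CurveAt Tan)
open Pool.Agent.H62.EF (MN pr)
open Pool.Agent.AD (Vd Chart Charts)
open Pool.Agent.TG (TMap Lat Geo Gd)

variable {N k : ℕ} {X : Set (EN N)} {Λ : AddSubgroup (Vd (k + 1))} {u : EN N → Vd (k + 1)} {D : Set (Vd (k + 1))} {m J r : ℕ}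
  {P : Fin J → SForm X Λ u m} {W : Fin r → Vd (k + 1) →L[ℂ] ℂ}

/-- the value of the form `P j` on the curve `F` -/
noncomputable def aP (P : Fin J → SForm X Λ u m) (h : ℂ → Vd (k + 1)) (F : ℂ → EN N) (j : Fin J) (z : ℂ) : ℂ := (P j).toFun (h z) (F z) (deriv F z)

theorem aP_an {U : Set ℂ} (hU : IsOpen U) {F : ℂ → EN N} {h : ℂ → Vd (k + 1)} (hF : Cv X Λ u U F h) (j : Fin J) {z : ℂ} (hz : z ∈ U) :
    AnalyticAt ℂ (aP P h F j) z := by
  have hUz : U ∈ 𝓝 z := hU.mem_nhds hz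
  have hFz : AnalyticAt ℂ F z := hF.F_diff.analyticAt hUz
  have hhz : AnalyticAt ℂ h z := hF.h_diff.analyticAt hUz
  have hpr : AnalyticAt ℂ (fun q : Vd 1 => q 0) (fun _ => z) :=
    (ContinuousLinearMap.proj (R := ℂ) (φ := fun _ : Fin 1 => ℂ) 0).analyticAt _
  have h1 : AnalyticAt ℂ (fun q : Vd 1 => F (q 0)) (fun _ => z) := hFz.comp_of_eq hpr rfl
  have h2 : AnalyticAt ℂ (fun q : Vd 1 => h (q 0)) (fun _ => z) := hhz.comp_of_eq hpr rfl
  have hev : ∀ᶠ q : Vd 1 in 𝓝 (fun _ => z), q 0 ∈ U := hpr.continuousAt.eventually hUz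
  have h3 := (P j).analytic 1 (fun q => F (q 0)) (fun q => h (q 0)) (fun _ => z) (fun _ => 1) h1 h2
    (hev.mono fun q hq => ⟨hF.mem _ hq, hF.lift _ hq⟩)
  have hg : AnalyticAt ℂ (fun w : ℂ => (((fun _ => w), (fun _ => 1)) : Vd 1 × Vd 1)) z := by
    refine AnalyticAt.prod ?_ analyticAt_const
    exact AnalyticAt.pi fun _ => analyticAt_id
  have h4 := h3.comp_of_eq hg rfl
  refine h4.congr ?_
  filter_upwards [hUz] with w hw
  have hFw : DifferentiableAt ℂ F w := (hF.F_diff w hw).differentiableAt (hU.mem_nhds hw)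
  have h5 : HasFDerivAt (fun q : Vd 1 => F (q 0))
      ((fderiv ℂ F w).comp (ContinuousLinearMap.proj (R := ℂ) (φ := fun _ : Fin 1 => ℂ) 0)) (fun _ => w) := by
    have h6 : HasFDerivAt F (fderiv ℂ F w) ((ContinuousLinearMap.proj (R := ℂ) (φ := fun _ : Fin 1 => ℂ) 0) (fun _ => w)) := hFw.hasFDerivAt
    exact h6.comp (fun _ => w) (ContinuousLinearMap.proj (R := ℂ) (φ := fun _ : Fin 1 => ℂ) 0).hasFDerivAt
  have h7 : fderiv ℂ (fun q : Vd 1 => F (q 0)) (fun _ => w) (fun _ => 1) = deriv F w := by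
    rw [h5.fderiv]
    simp
  show (P j).toFun (h w) (F w) (fderiv ℂ (fun q : Vd 1 => F (q 0)) (fun _ => w) (fun _ => 1)) = _
  rw [h7]
  rfl

theorem pP_curve (hP : PData X Λ u D P W) {U : Set ℂ} (hU : IsOpen U) {F : ℂ → EN N} {h : ℂ → Vd (k + 1)} (hF : Cv X Λ u U F h) {z : ℂ} (hz : z ∈ U) :
    pf (pP P W) F z = (⨆ j, ‖aP P h F j z‖) * ‖F z‖ * Real.exp (-wt W (h z)) := by
  have hl : u (F z) - h z ∈ Λ := hF.lift z hz
  have hx : F z ∈ X := hF.mem z hz
  have ht := hF.tan hU hz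
  have key : ∀ j, ‖(P j).toFun (u (F z)) (F z) (deriv F z)‖ * Real.exp (-wt W (u (F z))) = ‖aP P h F j z‖ * Real.exp (-wt W (h z)) := by
    intro j
    have := hP.per j (h z) (u (F z) - h z) hl (F z) hx hl (deriv F z) ht
    rwa [add_sub_cancel] at this
  show (⨆ j, ‖(P j).toFun (u (F z)) (F z) (deriv F z)‖) * ‖F z‖ * Real.exp (-wt W (u (F z))) = _
  rw [mul_right_comm, Real.iSup_mul_of_nonneg (Real.exp_nonneg _), mul_right_comm, Real.iSup_mul_of_nonneg (Real.exp_nonneg _)]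
  simp_rw [key]

theorem pP_nonneg (x v : EN N) : 0 ≤ pP P W x v := by
  unfold pP
  exact mul_nonneg (mul_nonneg (Real.iSup_nonneg fun _ => norm_nonneg _) (norm_nonneg _)) (Real.exp_nonneg _)

theorem pP_hom {x : EN N} (hx : x ∈ X) {v : EN N} (hv : Tan X x v) (a : ℂ) : pP P W x (a • v) = ‖a‖ ^ m * pP P W x v := by
  have key : ∀ j, ‖(P j).toFun (u x) x (a • v)‖ = ‖a‖ ^ m * ‖(P j).toFun (u x) x v‖ := by
    intro j
    rw [(P j).hom (u x) x hx (by rw [sub_self]; exact Λ.zero_mem) v hv a, norm_mul, norm_pow]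
  unfold pP
  simp_rw [key]
  rw [← Real.mul_iSup_of_nonneg (pow_nonneg (norm_nonneg _) _)]
  ring

theorem pP_cont (hX : IsCone X) (hP : PData X Λ u D P W) {U : Set ℂ} (hU : IsOpen U) {F : ℂ → EN N} {h : ℂ → Vd (k + 1)} (hF : Cv X Λ u U F h) :
    ContinuousOn (pf (pP P W) F) U := by
  have h1 : ContinuousOn (fun z => (⨆ j, ‖aP P h F j z‖) * ‖F z‖ * Real.exp (-wt W (h z))) U := by
    refine ContinuousOn.mul (ContinuousOn.mul ?_ hF.F_diff.continuousOn.norm) ?_
    · rcases isEmpty_or_nonempty (Fin J) with hJ | hJ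
      · simp_rw [Real.iSup_of_isEmpty]
        exact continuousOn_const
      · have h2 : ∀ z, (⨆ j, ‖aP P h F j z‖) = Finset.univ.sup' Finset.univ_nonempty fun j => ‖aP P h F j z‖ := fun z =>
          (Finset.sup'_univ_eq_ciSup _).symm
        simp_rw [h2]
        refine ContinuousOn.finset_sup'_apply _ fun j _ => ?_
        intro z hz
        exact (aP_an hU hF j hz).continuousAt.continuousWithinAt.norm
    · refine Real.continuous_exp.comp_continuousOn (ContinuousOn.neg ?_)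
      unfold wt
      refine continuousOn_finset_sum _ fun i _ => ?_
      exact (((W i).continuous.comp_continuousOn hF.h_diff.continuousOn).norm).pow 2
  exact h1.congr fun z hz => pP_curve hP hU hF hz

theorem pP_isol (hX : IsCone X) (hP : PData X Λ u D P W) {U : Set ℂ} (hU : IsOpen U) {F : ℂ → EN N} {h : ℂ → Vd (k + 1)} (hF : Cv X Λ u U F h) (hUc : IsPreconnected U)
    (h0 : ∃ z ∈ U, 0 < pf (pP P W) F z) : ∀ z ∈ U, ∀ᶠ w in 𝓝[≠] z, 0 < pf (pP P W) F w := by
  obtain ⟨z₁, hz₁, hpos⟩ := h0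
  rw [pP_curve hP hU hF hz₁] at hpos
  have hsup : (⨆ j, ‖aP P h F j z₁‖) ≠ 0 := by
    intro h
    rw [h] at hpos
    simp at hpos
  have hj : ∃ j, aP P h F j z₁ ≠ 0 := by
    by_contra hcon
    push Not at hcon
    apply hsup
    simp_rw [hcon, norm_zero]
    exact Real.iSup_const_zero
  obtain ⟨j, hj⟩ := hj
  have han : AnalyticOnNhd ℂ (aP P h F j) U := fun w hw => aP_an hU hF j hw
  intro z hz
  have hne : ∀ᶠ w in 𝓝[≠] z, aP P h F j w ≠ 0 := by
    rcases (han z hz).eventually_eq_zero_or_eventually_ne_zero with h1 | h1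
    · exfalso
      have h2 := han.eqOn_zero_of_preconnected_of_eventuallyEq_zero hUc hz h1
      exact hj (h2 hz₁)
    · exact h1
  have hUz : ∀ᶠ w in 𝓝[≠] z, w ∈ U := nhdsWithin_le_nhds (hU.mem_nhds hz)
  filter_upwards [hne, hUz] with w hw hwU
  rw [pP_curve hP hU hF hwU]
  have h3 : ‖aP P h F j w‖ ≤ ⨆ j, ‖aP P h F j w‖ := le_ciSup (f := fun j => ‖aP P h F j w‖) (Set.finite_range _).bddAbove j
  have h4 : 0 < ⨆ j, ‖aP P h F j w‖ := lt_of_lt_of_le (norm_pos_iff.mpr hw) h3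
  have h5 : F w ≠ 0 := fun h => hX.zero_notMem (h ▸ hF.mem w hwU)
  exact mul_pos (mul_pos h4 (norm_pos_iff.mpr h5)) (Real.exp_pos _)

end Pool.Agent.G3
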