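import Pool.Agent.G3.PS.Cont

/-!
# G3 PS Jen: Jensen's inequality for `pP`

On the closed disc: `log pP = log (sup_j ‖a_j‖) + log ‖F‖ - wt W (h)`.  Let `j` attain the supremum at the centre `z`, `a = aP .. j`, `a z ≠ 0`.
`log ‖a z‖ ≤ circleAverage (log ‖a‖) z r` (`AnalyticOnNhd.circleAverage_log_norm`, see `log_norm_le_avg` in `G3/C/LemmaU.lean` on main, or `MeromorphicOn.circleAverage_log_norm`);
`log ‖a‖ ≤ log (sup_j ‖a_j‖)` off the zeros of `a` (finitely many on the circle: use the a.e. version of the monotonicity of the integral).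
Circle integrability of `log (sup_j ‖a_j‖)`: it is measurable, bounded above (continuous functions on the compact circle) and `≥ log ‖a‖`, which is circle integrable
(`circleIntegrable_log_norm_meromorphicOn`).  `log ‖F‖` and `wt W ∘ h` are continuous on the disc.
`circleAverage (wt W ∘ h) z r - wt W (h z) = circleAverage (wt W (h - h z)) z r ≤ (∑ ‖W i‖^2) circleAverage ‖h - h z‖^2` (`|ℓ h|^2 = |ℓ h z|^2 + 2 Re (conj (ℓ h z) (ℓ h - ℓ h z)) + |ℓ (h - h z)|^2`
and the mean value property of the holomorphic function `ℓ ∘ h`).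
-/

set_option autoImplicit false

open Topology Filter Metric

namespace Pool.Agent.G3

open Pool.Agent.H36.BP (EN fs wd Sub)
open Pool.Agent.H14.PP (IsCone CurveAt Tan)
open Pool.Agent.H62.EF (MN pr)
open Pool.Agent.AD (Vd Chart Charts)
open Pool.Agent.TG (TMap Lat Geo Gd)

variable {N k : ℕ} {X : Set (EN N)} {Λ : AddSubgroup (Vd (k + 1))} {u : EN N → Vd (k + 1)} {D : Set (Vd (k + 1))} {m J r : ℕ}
  {P : Fin J → SForm X Λ u m} {W : Fin r → Vd (k + 1) →L[ℂ] ℂ}

/-- the mean value inequality for `log ‖a‖` -/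
private theorem log_norm_le_cA {a : ℂ → ℂ} {z : ℂ} {s : ℝ} (hs : 0 < s) (ha : AnalyticOnNhd ℂ a (closedBall z s)) (ha0 : a z ≠ 0) :
    Real.log ‖a z‖ ≤ Real.circleAverage (fun w => Real.log ‖a w‖) z s := by
  have har : |s| = s := abs_of_pos hs
  have hana : AnalyticOnNhd ℂ a (closedBall z |s|) := by rwa [har]
  rw [AnalyticOnNhd.circleAverage_log_norm hs.ne' hana ha0]
  have h1 : 0 ≤ ∑ᶠ u, (MeromorphicOn.divisor a (closedBall z |s|) u : ℝ) * Real.log (s * ‖z - u‖⁻¹) := by
    apply finsum_nonneg
    intro u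
    by_cases hu : u ∈ closedBall z |s|
    · apply mul_nonneg
      · have := MeromorphicOn.AnalyticOnNhd.divisor_nonneg hana u
        exact_mod_cast this
      · by_cases huc : u = z
        · simp [huc]
        · apply Real.log_nonneg
          have h2 : 0 < ‖z - u‖ := by
            rw [norm_pos_iff, sub_ne_zero]
            exact fun h => huc h.symm
          have h3 : ‖z - u‖ ≤ s := by
            rw [mem_closedBall, dist_eq_norm, abs_of_pos hs, norm_sub_rev] at hu
            exact hu
          rw [← div_eq_mul_inv, le_div_iff₀ h2]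
          linarith
    · have : MeromorphicOn.divisor a (closedBall z |s|) u = 0 := Function.locallyFinsuppWithin.apply_eq_zero_of_notMem _ hu
      simp [this]
  linarith

/-- an analytic function which is not zero at the centre is not zero outside a discrete set of the circle -/
private theorem ne_codisc {a : ℂ → ℂ} {z : ℂ} {s : ℝ} (hs : 0 < s) (ha : AnalyticOnNhd ℂ a (closedBall z s)) (ha0 : a z ≠ 0) :
    a ⁻¹' {0}ᶜ ∈ codiscreteWithin (sphere z |s|) := by
  have h1 : a ⁻¹' {0}ᶜ ∈ codiscreteWithin (closedBall z s) :=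
    ha.preimage_zero_mem_codiscreteWithin ha0 (mem_closedBall_self hs.le) ((convex_closedBall z s).isConnected ⟨z, mem_closedBall_self hs.le⟩)
  rw [abs_of_pos hs]
  exact codiscreteWithin_mono sphere_subset_closedBall h1

/-- the logarithm of a continuous majorant of `‖a‖` is circle integrable, and the mean value inequality -/
private theorem log_sup_avg {a : ℂ → ℂ} {S : ℂ → ℝ} {z : ℂ} {s : ℝ} (hs : 0 < s) (ha : AnalyticOnNhd ℂ a (closedBall z s)) (ha0 : a z ≠ 0)
    (hS : ContinuousOn S (sphere z s)) (hle : ∀ w ∈ sphere z s, ‖a w‖ ≤ S w) :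
    CircleIntegrable (fun w => Real.log (S w)) z s ∧ Real.log ‖a z‖ ≤ Real.circleAverage (fun w => Real.log (S w)) z s := by
  have har : |s| = s := abs_of_pos hs
  have hsub : sphere z s ⊆ closedBall z s := sphere_subset_closedBall
  have hmem : ∀ θ : ℝ, circleMap z s θ ∈ sphere z s := fun θ => circleMap_mem_sphere z hs.le θ
  have hIa : CircleIntegrable (fun w => Real.log ‖a w‖) z s := by
    apply MeromorphicOn.circleIntegrable_log_norm_of_nonneg _ hs.le
    exact (ha.mono hsub).meromorphicOn
  have hne : ∀ᵐ θ ∂(MeasureTheory.volume.restrict (Set.uIoc 0 (2 * Real.pi))), a (circleMap z s θ) ≠ 0 := by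
    have h3 := circleMap_preimage_codiscrete hs.ne' (ne_codisc hs ha ha0)
    have h4 := ae_restrict_le_codiscreteWithin (μ := MeasureTheory.volume) measurableSet_uIoc (codiscreteWithin_mono (U₁ := Set.uIoc 0 (2 * Real.pi)) (by simp) h3)
    filter_upwards [h4] with θ hθ
    exact hθ
  obtain ⟨M, hM⟩ := (isCompact_sphere z s).exists_bound_of_continuousOn hS
  have hlow : ∀ᵐ θ ∂(MeasureTheory.volume.restrict (Set.uIoc 0 (2 * Real.pi))),
      Real.log ‖a (circleMap z s θ)‖ ≤ Real.log (S (circleMap z s θ)) := by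
    filter_upwards [hne] with θ hθ
    exact Real.log_le_log (norm_pos_iff.mpr hθ) (hle _ (hmem θ))
  have hup : ∀ᵐ θ ∂(MeasureTheory.volume.restrict (Set.uIoc 0 (2 * Real.pi))),
      Real.log (S (circleMap z s θ)) ≤ |Real.log M| := by
    filter_upwards [hne] with θ hθ
    have h1 : 0 < S (circleMap z s θ) := (norm_pos_iff.mpr hθ).trans_le (hle _ (hmem θ))
    have h2 : S (circleMap z s θ) ≤ M := (le_abs_self _).trans (hM _ (hmem θ))
    exact (Real.log_le_log h1 h2).trans (le_abs_self _)
  have hIS : CircleIntegrable (fun w => Real.log (S w)) z s := by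
    have hg : IntervalIntegrable (fun θ => |Real.log ‖a (circleMap z s θ)‖| + |Real.log M|) MeasureTheory.volume 0 (2 * Real.pi) :=
      (IntervalIntegrable.abs hIa).add intervalIntegrable_const
    have hcS : Continuous fun θ : ℝ => S (circleMap z s θ) := hS.comp_continuous (continuous_circleMap z s) hmem
    refine hg.mono_fun (Real.measurable_log.comp hcS.measurable).aestronglyMeasurable ?_
    filter_upwards [hlow, hup] with θ h1 h2
    rw [Real.norm_eq_abs, Real.norm_eq_abs, abs_of_nonneg (a := |Real.log ‖a (circleMap z s θ)‖| + |Real.log M|) (by positivity), abs_le]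
    constructor
    · have := neg_abs_le (Real.log ‖a (circleMap z s θ)‖)
      have := abs_nonneg (Real.log M)
      linarith
    · have := abs_nonneg (Real.log ‖a (circleMap z s θ)‖)
      linarith
  refine ⟨hIS, (log_norm_le_cA hs ha ha0).trans ?_⟩
  rw [Real.circleAverage, Real.circleAverage, smul_eq_mul, smul_eq_mul]
  refine mul_le_mul_of_nonneg_left ?_ (by positivity)
  refine intervalIntegral.integral_mono_ae_restrict (by positivity) hIa hIS ?_
  rw [Set.uIoc_of_le (by positivity)] at hlow
  rw [MeasureTheory.Measure.restrict_congr_set MeasureTheory.Ioc_ae_eq_Icc.symm]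
  exact hlow

/-- the mean of `‖ℓ h‖ ^ 2` -/
private theorem cA_sq {g : ℂ → ℂ} {z : ℂ} {s : ℝ} (hs : 0 < s) (hg : DifferentiableOn ℂ g (closedBall z s)) :
    Real.circleAverage (fun w => ‖g w‖ ^ 2) z s = ‖g z‖ ^ 2 + Real.circleAverage (fun w => ‖g w - g z‖ ^ 2) z s := by
  have har : |s| = s := abs_of_pos hs
  have hsub : sphere z s ⊆ closedBall z s := sphere_subset_closedBall
  have hgc : ContinuousOn g (sphere z s) := hg.continuousOn.mono hsub
  have hd : DiffContOnCl ℂ g (ball z |s|) := by
    rw [har]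
    exact DifferentiableOn.diffContOnCl (by rwa [closure_ball z hs.ne'])
  have hmean : Real.circleAverage g z s = g z := hd.circleAverage
  have hIg : CircleIntegrable g z s := hgc.circleIntegrable hs.le
  -- the linear term
  set L : ℂ →L[ℝ] ℝ := Complex.reCLM.comp ((ContinuousLinearMap.mul ℂ ℂ ((starRingEnd ℂ) (g z))).restrictScalars ℝ) with hL
  have hLv : ∀ w, L w = ((starRingEnd ℂ) (g z) * w).re := fun w => by
    simp [hL]
  have hlin : Real.circleAverage (fun w => L (g w)) z s = L (g z) := by
    have := L.circleAverage_comp_comm hIg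
    rw [hmean] at this
    exact this
  have hIL : CircleIntegrable (fun w => L (g w)) z s := (L.continuous.comp_continuousOn hgc).circleIntegrable hs.le
  have hIn : CircleIntegrable (fun w => ‖g w - g z‖ ^ 2) z s := ((hgc.sub continuousOn_const).norm.pow 2).circleIntegrable hs.le
  have hpt : (fun w => ‖g w‖ ^ 2) = fun w => ((2 : ℝ) • (L (g w)) + ‖g w - g z‖ ^ 2) + (-‖g z‖ ^ 2) := by
    funext w
    rw [hLv, Complex.sq_norm, Complex.sq_norm, Complex.sq_norm, Complex.normSq_apply, Complex.normSq_apply, Complex.normSq_apply]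
    simp only [Complex.sub_re, Complex.sub_im, Complex.mul_re, Complex.conj_re, Complex.conj_im, smul_eq_mul]
    ring
  have hI1 : CircleIntegrable (fun w => (2 : ℝ) • (L (g w))) z s := hIL.const_fun_smul
  rw [hpt, Real.circleAverage_fun_add (hI1.fun_add hIn) (circleIntegrable_const _ _ _), Real.circleAverage_fun_add hI1 hIn,
    Real.circleAverage_fun_smul, Real.circleAverage_const, hlin, hLv]
  have h1 : ((starRingEnd ℂ) (g z) * g z).re = ‖g z‖ ^ 2 := by
    rw [Complex.sq_norm, Complex.normSq_apply]
    simp [Complex.mul_re]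
  rw [h1, smul_eq_mul]
  ring

theorem pP_jensen (hX : IsCone X) (hP : PData X Λ u D P W) {U : Set ℂ} (hU : IsOpen U) {F : ℂ → EN N} {h : ℂ → Vd (k + 1)} (hF : Cv X Λ u U F h) {z : ℂ} {s : ℝ} (hs : 0 < s)
    (hz : closedBall z s ⊆ U) (h0 : 0 < pf (pP P W) F z) :
    CircleIntegrable (fun w => Real.log (pf (pP P W) F w)) z s ∧
    Real.log (pf (pP P W) F z) + TT F z s ≤
      Real.circleAverage (fun w => Real.log (pf (pP P W) F w)) z s + (∑ i, ‖W i‖ ^ 2) * Real.circleAverage (fun w => ‖h w - h z‖ ^ 2) z s := by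
  have hzz : z ∈ closedBall z s := mem_closedBall_self hs.le
  have hsub : sphere z s ⊆ closedBall z s := sphere_subset_closedBall
  have hFne : ∀ w ∈ closedBall z s, F w ≠ 0 := fun w hw h => hX.zero_notMem (h ▸ hF.mem w (hz hw))
  set S : ℂ → ℝ := fun w => ⨆ j, ‖aP P h F j w‖ with hSdef
  have hcurve : ∀ w ∈ closedBall z s, pf (pP P W) F w = S w * ‖F w‖ * Real.exp (-wt W (h w)) := fun w hw => pP_curve hP hU hF (hz hw)
  have hSz : 0 < S z := by
    rw [hcurve z hzz] at h0
    have h1 : 0 < ‖F z‖ := norm_pos_iff.mpr (hFne z hzz)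
    have h2 := Real.exp_pos (-wt W (h z))
    have h3 : 0 ≤ S z := Real.iSup_nonneg fun j => norm_nonneg _
    rcases h3.lt_or_eq with h4 | h4
    · exact h4
    · rw [← h4] at h0
      simp at h0
  have : Nonempty (Fin J) := by
    by_contra hne
    rw [not_nonempty_iff] at hne
    have : S z = 0 := Real.iSup_of_isEmpty _
    rw [this] at hSz
    exact lt_irrefl _ hSz
  obtain ⟨j, hj⟩ : ∃ j, ‖aP P h F j z‖ = S z := exists_eq_ciSup_of_finite
  have hle : ∀ w, ‖aP P h F j w‖ ≤ S w := fun w => le_ciSup (f := fun j => ‖aP P h F j w‖) (Set.finite_range _).bddAbove j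
  have haz : aP P h F j z ≠ 0 := by
    rw [← norm_pos_iff, hj]
    exact hSz
  have han : AnalyticOnNhd ℂ (aP P h F j) (closedBall z s) := fun w hw => aP_an hU hF j (hz hw)
  have hSc : ContinuousOn S (closedBall z s) := by
    have h1 : ∀ i : Fin J, ContinuousOn (fun w => ‖aP P h F i w‖) (closedBall z s) := fun i w hw =>
      (aP_an hU hF i (hz hw)).continuousAt.norm.continuousWithinAt
    have h2 : S = fun w => Finset.univ.sup' Finset.univ_nonempty fun i => ‖aP P h F i w‖ := by
      funext w
      rw [Finset.sup'_univ_eq_ciSup]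
    rw [h2]
    exact ContinuousOn.finset_sup'_apply Finset.univ_nonempty fun i _ => h1 i
  obtain ⟨hIS, havS⟩ := log_sup_avg hs han haz (hSc.mono hsub) fun w _ => hle w
  -- the other two functions
  have hFc : ContinuousOn F (closedBall z s) := hF.F_diff.continuousOn.mono hz
  have hhc : ContinuousOn h (closedBall z s) := hF.h_diff.continuousOn.mono hz
  have hIF : CircleIntegrable (fun w => Real.log ‖F w‖) z s :=
    ((hFc.norm.log fun w hw => (norm_pos_iff.mpr (hFne w hw)).ne').mono hsub).circleIntegrable hs.le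
  have hIi : ∀ i : Fin r, CircleIntegrable (fun w => ‖W i (h w)‖ ^ 2) z s := fun i =>
    ((((W i).continuous.comp_continuousOn hhc).norm.pow 2).mono hsub).circleIntegrable hs.le
  have hIW : CircleIntegrable (fun w => wt W (h w)) z s := by
    unfold wt
    exact CircleIntegrable.fun_sum _ fun i _ => hIi i
  have hIh : CircleIntegrable (fun w => ‖h w - h z‖ ^ 2) z s :=
    (((hhc.sub continuousOn_const).norm.pow 2).mono hsub).circleIntegrable hs.le
  -- the formula for the logarithm
  have hlog : ∀ w ∈ closedBall z s, S w ≠ 0 → Real.log (pf (pP P W) F w) = Real.log (S w) + Real.log ‖F w‖ - wt W (h w) := by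
    intro w hw hSw
    have h1 : ‖F w‖ ≠ 0 := (norm_pos_iff.mpr (hFne w hw)).ne'
    rw [hcurve w hw, Real.log_mul (mul_ne_zero hSw h1) (Real.exp_pos _).ne', Real.log_mul hSw h1, Real.log_exp]
    ring
  have hcod : (fun w => Real.log (S w) + Real.log ‖F w‖ - wt W (h w)) =ᶠ[codiscreteWithin (sphere z |s|)] fun w => Real.log (pf (pP P W) F w) := by
    filter_upwards [ne_codisc hs han haz, self_mem_codiscreteWithin (sphere z |s|)] with w h1 h2
    rw [abs_of_pos hs] at h2
    have h3 : 0 < ‖aP P h F j w‖ := norm_pos_iff.mpr h1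
    exact (hlog w (hsub h2) (h3.trans_le (hle w)).ne').symm
  have hI2 : CircleIntegrable (fun w => Real.log (S w) + Real.log ‖F w‖) z s := hIS.fun_add hIF
  have hav : Real.circleAverage (fun w => Real.log (pf (pP P W) F w)) z s =
      Real.circleAverage (fun w => Real.log (S w)) z s + Real.circleAverage (fun w => Real.log ‖F w‖) z s - Real.circleAverage (fun w => wt W (h w)) z s := by
    rw [← Real.circleAverage_congr_codiscreteWithin hcod hs.ne', Real.circleAverage_fun_sub hI2 hIW, Real.circleAverage_fun_add hIS hIF]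
  have hwt : Real.circleAverage (fun w => wt W (h w)) z s ≤ wt W (h z) + (∑ i, ‖W i‖ ^ 2) * Real.circleAverage (fun w => ‖h w - h z‖ ^ 2) z s := by
    have h1 : Real.circleAverage (fun w => wt W (h w)) z s = ∑ i, Real.circleAverage (fun w => ‖W i (h w)‖ ^ 2) z s := by
      unfold wt
      exact Real.circleAverage_fun_sum fun i _ => hIi i
    rw [h1, wt, Finset.sum_mul, ← Finset.sum_add_distrib]
    refine Finset.sum_le_sum fun i _ => ?_
    have h2 : DifferentiableOn ℂ (fun w => W i (h w)) (closedBall z s) := (W i).differentiable.comp_differentiableOn (hF.h_diff.mono hz)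
    rw [cA_sq hs h2]
    have h3 : Real.circleAverage (fun w => ‖W i (h w) - W i (h z)‖ ^ 2) z s ≤ Real.circleAverage (fun w => (‖W i‖ ^ 2) • (‖h w - h z‖ ^ 2)) z s := by
      refine Real.circleAverage_mono ?_ hIh.const_fun_smul fun w _ => ?_
      · exact (((((W i).continuous.comp_continuousOn hhc).sub continuousOn_const).norm.pow 2).mono hsub).circleIntegrable hs.le
      · rw [← map_sub, smul_eq_mul, ← mul_pow]
        exact pow_le_pow_left₀ (norm_nonneg _) ((W i).le_opNorm _) 2
    rw [Real.circleAverage_fun_smul, smul_eq_mul] at h3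
    linarith
  refine ⟨CircleIntegrable.congr_codiscreteWithin hcod (hI2.fun_sub hIW), ?_⟩
  rw [hav, hlog z hzz hSz.ne', TT]
  rw [hj] at havS
  linarith

end Pool.Agent.G3
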