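import Pool.Agent.G3.PS.Cont
import Pool.Agent.H36.BP.SubA
import Pool.Agent.H36.BP.SubB
import Pool.Agent.H36.BP.SubC

/-!
# G3 PS Sub: the lower support of `pP` on curves

At `z` the supremum is attained by some `j`, `aP .. j z ≠ 0`.  `Sub (‖aP .. j ·‖) z 0` (`Sub.of_holo`), `Sub ‖F‖ z (fs^2/2)` (`Sub.norm_rpow` with `a = 1`),
`Sub (exp (- ‖W i (h ·)‖^2)) z (- ‖W i (h' z)‖^2)` (`Sub.exp_sq` with `a = -1`, `t = W i ∘ h`); product over `i` (induction over `Fin r`), `‖W i v‖ ≤ ‖W i‖ ‖v‖`, so `C = ∑ ‖W i‖^2` works;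
`Sub.mul`, then `Sub.mono` (the supremum is at least the `j`-th term), `Sub.congr`.
-/

set_option autoImplicit false

open Topology Filter Metric

namespace Pool.Agent.G3

open Pool.Agent.H36.BP (EN fs wd Sub)
open Pool.Agent.H14.PP (IsCone CurveAt Tan)
open Pool.Agent.H62.EF (MN pr)
open Pool.Agent.AD (Vd Chart Charts)
open Pool.Agent.TG (TMap Lat Geo Gd)

variable {N k : ℕ} {X : Set (EN N)} {Λ : AddSubgroup (Vd (k + 1))} {u : EN N → Vd (k + 1)} {D : Set (Vd (k + 1))} {m J r : ℕ}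
  {P : Fin J → SForm X Λ u m} {W : Fin r → Vd (k + 1) →L[ℂ] ℂ}

private theorem sub_exp {h : ℂ → Vd (k + 1)} {z : ℂ} (hh : AnalyticAt ℂ h z) (s : Finset (Fin r)) :
    Sub (fun w => Real.exp (-∑ i ∈ s, ‖W i (h w)‖ ^ 2)) z (-∑ i ∈ s, ‖W i (deriv h z)‖ ^ 2) := by
  classical
  induction s using Finset.induction_on with
  | empty =>
    simp only [Finset.sum_empty, neg_zero, Real.exp_zero]
    exact Pool.Agent.H36.BP.Sub.const one_pos z
  | insert i s hi ih =>
    have h1 : AnalyticAt ℂ (fun w => W i (h w)) z := ((W i).analyticAt _).comp hh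
    have h2 : deriv (fun w => W i (h w)) z = W i (deriv h z) :=
      ((W i).hasFDerivAt.comp_hasDerivAt z hh.differentiableAt.hasDerivAt).deriv
    have h3 := Pool.Agent.H36.BP.Sub.exp_sq h1 (-1)
    rw [h2] at h3
    have h4 := (h3.mul ih).congr (v := fun w => Real.exp (-∑ j ∈ insert i s, ‖W j (h w)‖ ^ 2)) (Filter.Eventually.of_forall fun w => by
      rw [← Real.exp_add, Finset.sum_insert hi]
      congr 1
      ring)
    refine h4.anti (le_of_eq ?_)
    rw [Finset.sum_insert hi]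
    ring

theorem pP_sub (hX : IsCone X) (hP : PData X Λ u D P W) {U : Set ℂ} (hU : IsOpen U) {F : ℂ → EN N} {h : ℂ → Vd (k + 1)} (hF : Cv X Λ u U F h) {z : ℂ} (hz : z ∈ U)
    (h0 : 0 < pf (pP P W) F z) :
    Sub (pf (pP P W) F) z (fs (F z) (deriv F z) ^ 2 / 2 - (∑ i, ‖W i‖ ^ 2) * ‖deriv h z‖ ^ 2) := by
  have hUz : U ∈ 𝓝 z := hU.mem_nhds hz
  have hFz : F z ≠ 0 := fun h1 => hX.zero_notMem (h1 ▸ hF.mem z hz)
  have hFa : AnalyticAt ℂ F z := hF.F_diff.analyticAt hUz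
  have hha : AnalyticAt ℂ h z := hF.h_diff.analyticAt hUz
  have h1 := pP_curve hP hU hF hz
  rcases isEmpty_or_nonempty (Fin J) with hJ | hJ
  · rw [h1, Real.iSup_of_isEmpty, zero_mul, zero_mul] at h0
    exact absurd h0 (lt_irrefl _)
  obtain ⟨j, hj⟩ := exists_eq_ciSup_of_finite (f := fun j => ‖aP P h F j z‖)
  have hj0 : aP P h F j z ≠ 0 := by
    intro h2
    rw [h1, ← hj, h2, norm_zero, zero_mul, zero_mul] at h0
    exact lt_irrefl _ h0
  have hA := Pool.Agent.H36.BP.Sub.of_holo (aP_an hU hF j hz) hj0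
  have hB := Pool.Agent.H36.BP.Sub.norm_rpow hFa hFz 1
  have hE := sub_exp (W := W) hha Finset.univ
  have hT := ((hA.mul hB).mul hE).mono (v := pf (pP P W) F) (by
    rw [h1, ← hj, Real.rpow_one]
    rfl) (by
    filter_upwards [hUz] with w hw
    rw [pP_curve hP hU hF hw, Real.rpow_one]
    have h3 : ‖aP P h F j w‖ ≤ ⨆ j, ‖aP P h F j w‖ := le_ciSup (Set.finite_range fun j => ‖aP P h F j w‖).bddAbove j
    exact mul_le_mul_of_nonneg_right (mul_le_mul_of_nonneg_right h3 (norm_nonneg _)) (Real.exp_pos _).le)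
  refine hT.anti ?_
  have h4 : ∑ i, ‖W i (deriv h z)‖ ^ 2 ≤ (∑ i, ‖W i‖ ^ 2) * ‖deriv h z‖ ^ 2 := by
    rw [Finset.sum_mul]
    refine Finset.sum_le_sum fun i _ => ?_
    rw [← mul_pow]
    exact pow_le_pow_left₀ (norm_nonneg _) ((W i).le_opNorm _) 2
  linarith

end Pool.Agent.G3
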